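import Mathlib

/-!
# Lemma P (helper64; independently helper86)

`X` is a finite partially ordered set with a colouring `red`. `Nb red x t` says that `t` is comparable
with and different from `x`, or that `t = x` is red. `K` is a component of the comparability graph.
-/

namespace HWP

variable {X : Type*} [PartialOrder X]

/-- `t` is in the row `N_x` -/
def Nb (red : X → Prop) (x t : X) : Prop := x < t ∨ t < x ∨ (x = t ∧ red x)

/-- `K` is a component of the comparability graph -/
structure IsComp (K : Set X) : Prop where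
  up : ∀ x ∈ K, ∀ y, x < y → y ∈ K
  down : ∀ x ∈ K, ∀ y, y < x → y ∈ K
  conn : ∀ x ∈ K, ∀ y ∈ K, Relation.ReflTransGen (fun a b => a < b ∨ b < a) x y

/-- The conditions (1), (2), (3) at the root, for the points of `K`. -/
structure Cond (red : X → Prop) (K : Set X) : Prop where
  dom : ∀ v ∈ K, ¬ red v → (∃ t, Nb red v t) →
    ∃ z, red z ∧ Nb red v z ∧ ∀ t, Nb red v t → Nb red z t
  adj : ∀ p ∈ K, ∀ q ∈ K, red p → red q → p < q → ¬ (∀ t, Nb red p t ↔ Nb red q t) →
    ∃ v, ¬ red v ∧
      ((Nb red p v ∧ ¬ Nb red q v ∧ (∀ t, Nb red v t → Nb red p t → Nb red q t) ∧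
          ∀ t, Nb red q t → Nb red v t ∨ Nb red p t) ∨
        (Nb red q v ∧ ¬ Nb red p v ∧ (∀ t, Nb red v t → Nb red q t → Nb red p t) ∧
          ∀ t, Nb red p t → Nb red v t ∨ Nb red q t))
  non : ∀ p ∈ K, ∀ q ∈ K, red p → red q → ¬ Nb red p q → (∃ t, Nb red p t ∧ Nb red q t) →
    ∃ v, ¬ red v ∧ ¬ Nb red p v ∧ ¬ Nb red q v ∧ (∀ t, Nb red p t → Nb red q t → Nb red v t) ∧
      ∀ t, Nb red v t → Nb red p t ∨ Nb red q t

theorem Nb.symm {red : X → Prop} {x t : X} (h : Nb red x t) : Nb red t x := by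
  rcases h with h | h | ⟨h, h'⟩
  · exact Or.inr (Or.inl h)
  · exact Or.inl h
  · subst h; exact Or.inr (Or.inr ⟨rfl, h'⟩)

theorem Nb.refl {red : X → Prop} {x : X} (h : red x) : Nb red x x := Or.inr (Or.inr ⟨rfl, h⟩)

theorem IsComp.nb {red : X → Prop} {K : Set X} (hK : IsComp K) {x t : X} (hx : x ∈ K)
    (h : Nb red x t) : t ∈ K := by
  rcases h with h | h | ⟨h, _⟩
  · exact hK.up x hx t h
  · exact hK.down x hx t h
  · exact h ▸ hx

/-- the setoid of equal rows -/
def rows (red : X → Prop) : Setoid X where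
  r x y := ∀ t, Nb red x t ↔ Nb red y t
  iseqv := ⟨fun _ _ => Iff.rfl, fun h t => (h t).symm, fun h h' t => (h t).trans (h' t)⟩

theorem red_of_rows {red : X → Prop} {x y : X} (hx : red x) (h : ∀ t, Nb red x t ↔ Nb red y t) :
    red y := by
  have h1 : Nb red y x := (h x).1 (Nb.refl hx)
  have h2 : Nb red y y := (h y).1 h1.symm
  rcases h2 with h2 | h2 | ⟨_, h2⟩
  · exact absurd h2 (lt_irrefl _)
  · exact absurd h2 (lt_irrefl _)
  · exact h2

theorem lemmaP [Finite X] (red : X → Prop) (K : Set X) (hK : IsComp K) (hc : Cond red K)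
    (hr : ∃ r ∈ K, red r) : ∃ z ∈ K, red z ∧ ∀ t ∈ K, Nb red z t := by
  classical
  obtain ⟨r, hrK, hrr⟩ := hr
  by_contra hno
  push Not at hno
  -- inclusion of rows
  let le : X → X → Prop := fun x y => ∀ t, Nb red x t → Nb red y t
  have le_trans' : ∀ {x y z : X}, le x y → le y z → le x z := fun h h' t ht => h' t (h t ht)
  let rep : X → X := fun x => (Quotient.mk (rows red) x).out
  have hrep : ∀ x, ∀ t, Nb red (rep x) t ↔ Nb red x t := by
    intro x
    have h : (rows red).r (Quotient.mk (rows red) x).out x := Quotient.exact (Quotient.out_eq _)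
    exact h
  have hrep_eq : ∀ x y, (∀ t, Nb red x t ↔ Nb red y t) → rep x = rep y := by
    intro x y h
    have : Quotient.mk (rows red) x = Quotient.mk (rows red) y := Quotient.sound h
    simp only [rep, this]
  -- the stars
  let Star : X → Prop := fun s => s ∈ K ∧ red s ∧ (∀ y ∈ K, red y → le s y → le y s) ∧ rep s = s
  have star_inj : ∀ {s s' : X}, Star s → Star s' → le s s' → s = s' := by
    intro s s' hs hs' h
    have h' := hs.2.2.1 s' hs'.1 hs'.2.1 h
    have := hrep_eq s s' fun t => ⟨h t, h' t⟩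
    rw [hs.2.2.2, hs'.2.2.2] at this
    exact this
  -- every red point is below a star
  have star_above : ∀ x ∈ K, red x → ∃ s, Star s ∧ le x s := by
    intro x hx hxr
    -- choose a maximal row
    have hfin : {y | y ∈ K ∧ red y ∧ le x y}.Finite := Set.toFinite _
    have hne : {y | y ∈ K ∧ red y ∧ le x y}.Nonempty := ⟨x, hx, hxr, fun _ h => h⟩
    obtain ⟨m, hm, hmax⟩ := Set.exists_max_image _ (fun y => (Set.toFinite {t | Nb red y t}).toFinset.card)
      hfin hne
    refine ⟨rep m, ⟨?_, ?_, ?_, ?_⟩, ?_⟩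
    · have h1 : Nb red (rep m) m := (hrep m m).2 (Nb.refl hm.2.1)
      exact hK.nb hm.1 h1.symm
    · exact red_of_rows hm.2.1 fun t => (hrep m t).symm
    · intro y hy hyr hle t ht
      rw [hrep]
      have hmy : le m y := fun t ht => hle t ((hrep m t).2 ht)
      have h2 := hmax y ⟨hy, hyr, le_trans' hm.2.2 hmy⟩
      have h3 : (Set.toFinite {t | Nb red m t}).toFinset ⊆ (Set.toFinite {t | Nb red y t}).toFinset := by
        intro t ht
        simp only [Set.Finite.mem_toFinset, Set.mem_ofPred_eq] at ht ⊢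
        exact hmy t ht
      have h4 := Finset.eq_of_subset_of_card_le h3 h2
      have h5 : t ∈ (Set.toFinite {t | Nb red y t}).toFinset := by
        simp only [Set.Finite.mem_toFinset, Set.mem_ofPred_eq]; exact ht
      rw [← h4] at h5
      simpa only [Set.Finite.mem_toFinset, Set.mem_ofPred_eq] using h5
    · exact hrep_eq _ _ (hrep m)
    · exact fun t ht => (hrep m t).2 (hm.2.2 t ht)
  -- domination by a star
  have dom : ∀ t ∈ K, ∃ s, Star s ∧ Nb red s t ∧ le t s := by
    intro t ht
    by_cases htr : red t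
    · obtain ⟨s, hs, hle⟩ := star_above t ht htr
      exact ⟨s, hs, hle t (Nb.refl htr), hle⟩
    · have hex : ∃ t', Nb red t t' := by
        have hne : t ≠ r := fun h => htr (h ▸ hrr)
        have h1 := hK.conn t ht r hrK
        rcases Relation.ReflTransGen.cases_head h1 with h1 | ⟨c, hc', _⟩
        · exact absurd h1 hne
        · exact ⟨c, hc'.elim Or.inl fun h => Or.inr (Or.inl h)⟩
      obtain ⟨z, hzr, hz, hle⟩ := hc.dom t ht htr hex
      obtain ⟨s, hs, hle'⟩ := star_above z (hK.nb ht hz) hzr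
      exact ⟨s, hs, hle' t hz.symm, le_trans' hle hle'⟩
  choose! d hd using dom
  have hdS : ∀ t ∈ K, Star (d t) := fun t ht => (hd t ht).1
  have hdN : ∀ t ∈ K, Nb red (d t) t := fun t ht => (hd t ht).2.1
  have hdle : ∀ t ∈ K, le t (d t) := fun t ht => (hd t ht).2.2
  have hdstar : ∀ s, Star s → d s = s := fun s hs =>
    (star_inj hs (hdS s hs.1) (hdle s hs.1)).symm
  -- (0): two comparable stars
  have h0 : ∃ p q, Star p ∧ Star q ∧ p < q := by
    by_contra hcon
    push Not at hcon
    have hstep : ∀ t ∈ K, ∀ t', (t < t' ∨ t' < t) → d t = d t' := by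
      intro t ht t' h
      have hN : Nb red t t' := h.elim Or.inl fun h => Or.inr (Or.inl h)
      have ht' : t' ∈ K := hK.nb ht hN
      -- t ∈ N_{t'} ⊆ N_{d t'}
      have h1 : Nb red (d t') t := hdle t' ht' t hN.symm
      have h2 : Nb red (d t) (d t') := hdle t ht _ h1.symm
      rcases h2 with h2 | h2 | ⟨h2, _⟩
      · exact absurd h2 (hcon _ _ (hdS t ht) (hdS t' ht'))
      · exact absurd h2 (hcon _ _ (hdS t' ht') (hdS t ht))
      · exact h2
    have hall : ∀ t ∈ K, d r = d t := by
      intro t ht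
      have h1 := hK.conn r hrK t ht
      have h2 : d r = d t ∧ t ∈ K := by
        clear ht
        induction h1 with
        | refl => exact ⟨rfl, hrK⟩
        | tail _ hbc ih =>
          refine ⟨ih.1.trans (hstep _ ih.2 _ hbc), ?_⟩
          rcases hbc with h | h
          · exact hK.up _ ih.2 _ h
          · exact hK.down _ ih.2 _ h
      exact h2.1
    obtain ⟨t, ht, hnt⟩ := hno (d r) (hdS r hrK).1 (hdS r hrK).2.1
    apply hnt
    rw [hall t ht]
    exact hdN t ht
  -- the star `q`
  have h1 : ∃ q, (Star q ∧ ∃ p, Star p ∧ p < q) ∧ ∀ q', (Star q' ∧ ∃ p, Star p ∧ p < q') → ¬ q' < q := by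
    obtain ⟨p, q, hp, hq, hpq⟩ := h0
    have hwf : WellFounded (fun a b : X => a < b) := wellFounded_lt
    obtain ⟨m, hm, hmin⟩ := hwf.has_min {q | Star q ∧ ∃ p, Star p ∧ p < q} ⟨q, hq, p, hp, hpq⟩
    exact ⟨m, hm, fun q' hq' => hmin q' hq'⟩
  obtain ⟨q, ⟨hq, p0, hp0, hp0q⟩, hqmin⟩ := h1
  -- the block: the stars below `q`, an antichain
  have anti : ∀ x y, Star x → x < q → Star y → y < q → x ≠ y → ¬ Nb red x y := by
    intro x y hx hxq hy hyq hne h
    rcases h with h | h | ⟨h, _⟩
    · exact hqmin y ⟨hy, x, hx, h⟩ hyq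
    · exact hqmin x ⟨hx, y, hy, h⟩ hxq
    · exact hne h
  -- (G)
  have hG : ∀ w, w < q → ¬ Star w → d w = q ∨ (Star (d w) ∧ d w < q) := by
    intro w hwq hws
    have hwK : w ∈ K := hK.down q hq.1 w hwq
    have h2 : Nb red (d w) q := hdle w hwK q (Or.inl hwq)
    rcases h2 with h2 | h2 | ⟨h2, _⟩
    · exact Or.inr ⟨hdS w hwK, h2⟩
    · left
      refine (star_inj hq (hdS w hwK) ?_).symm
      intro t ht
      rcases ht with ht | ht | ⟨ht, _⟩
      · exact hdle w hwK t (Or.inl (hwq.trans ht))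
      · exact Or.inr (Or.inl (ht.trans h2))
      · exact ht ▸ Or.inr (Or.inl h2)
    · exact Or.inl h2
  -- rows of different stars are different
  have hneq : ∀ x, Star x → x < q → ¬ ∀ t, Nb red x t ↔ Nb red q t := by
    intro x hx hxq h
    exact hxq.ne (star_inj hx hq fun t ht => (h t).1 ht)
  by_cases hB : ∀ x, Star x → x < q → x = p0
  · -- (A) one star below `q`
    have hnle : ¬ le q p0 := fun h => hp0q.ne (star_inj hq hp0 h).symm
    have hnle' : ¬ le p0 q := fun h => hp0q.ne (star_inj hp0 hq h)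
    -- elements of `N_q \ N_p`
    have hW : ∀ w, Nb red q w → ¬ Nb red p0 w → w < q ∧ le w q := by
      intro w hw hnw
      have h3 : w < q := by
        rcases hw with h | h | ⟨h, _⟩
        · exact absurd (Or.inl (hp0q.trans h)) hnw
        · exact h
        · subst h; exact absurd (Or.inl hp0q) hnw
      refine ⟨h3, ?_⟩
      have hws : ¬ Star w := by
        intro h
        have := hB w h h3
        subst this
        exact hnw (Nb.refl hp0.2.1)
      have hwK : w ∈ K := hK.down q hq.1 w h3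
      rcases hG w h3 hws with h4 | ⟨h4, h5⟩
      · have := hdle w hwK; rwa [h4] at this
      · have h6 := hB _ h4 h5
        have h7 := hdN w hwK
        rw [h6] at h7
        exact absurd h7 hnw
    obtain ⟨v, _, ⟨h2, h3, h4, h5⟩ | ⟨h2, h3, h4, h5⟩⟩ :=
      hc.adj p0 hp0.1 q hq.1 hp0.2.1 hq.2.1 hp0q (hneq p0 hp0 hp0q)
    · -- `v ∈ N_p \ N_q`
      apply hnle
      intro w hw
      by_contra hnw
      obtain ⟨_, h6⟩ := hW w hw hnw
      rcases h5 w hw with h7 | h7
      · exact h3 (h6 v h7.symm)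
      · exact hnw h7
    · -- `v ∈ N_q \ N_p`
      obtain ⟨_, h6⟩ := hW v h2 h3
      apply hnle'
      intro t ht
      rcases h5 t ht with h7 | h7
      · exact h6 t h7
      · exact h7
  · -- (B) two stars below `q`
    push Not at hB
    obtain ⟨y, hy, hyq, hyne⟩ := hB
    -- (B1)
    have hxr := hp0.2.1
    obtain ⟨z, hzb, hz⟩ := hc.adj p0 hp0.1 q hq.1 hp0.2.1 hq.2.1 hp0q (hneq p0 hp0 hp0q)
    have hz' : Nb red p0 z ∧ ¬ Nb red q z ∧ ∀ t, Nb red q t → Nb red z t ∨ Nb red p0 t := by
      rcases hz with ⟨h2, h3, h4, h5⟩ | ⟨h2, h3, h4, h5⟩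
      · exact ⟨h2, h3, h5⟩
      · exfalso
        have hzq : z < q := by
          rcases h2 with h | h | ⟨h, _⟩
          · exact absurd (Or.inl (hp0q.trans h)) h3
          · exact h
          · subst h; exact absurd (Or.inl hp0q) h3
        have hzK : z ∈ K := hK.down q hq.1 z hzq
        have hzs : ¬ Star z := fun h => hzb h.2.1
        rcases hG z hzq hzs with h6 | ⟨h6, h7⟩
        · -- `d z = q`
          have h8 : le z q := by have := hdle z hzK; rwa [h6] at this
          refine hp0q.ne (star_inj hp0 hq ?_)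
          intro t ht
          rcases h5 t ht with h9 | h9
          · exact h8 t h9
          · exact h9
        · -- `d z = m` in the block
          have h8 : Nb red (d z) z := hdN z hzK
          have h9 : Nb red p0 (d z) := h4 _ h8.symm (Or.inr (Or.inl h7))
          have h10 : p0 ≠ d z := by
            intro h
            rw [← h] at h8
            exact h3 h8
          exact anti p0 (d z) hp0 hp0q h6 h7 h10 h9
    obtain ⟨hz1, hz2, hz3⟩ := hz'
    have hzy : Nb red z y := by
      rcases hz3 y (Or.inr (Or.inl hyq)) with h | h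
      · exact h
      · exact absurd h (anti p0 y hp0 hp0q hy hyq (Ne.symm hyne))
    -- (B2)
    obtain ⟨v, hvb, h2, h3, h4, h5⟩ := hc.non p0 hp0.1 y hy.1 hp0.2.1 hy.2.1
      (anti p0 y hp0 hp0q hy hyq (Ne.symm hyne)) ⟨q, Or.inl hp0q, Or.inl hyq⟩
    have hvq : Nb red v q := h4 q (Or.inl hp0q) (Or.inl hyq)
    have hvz : Nb red v z := h4 z hz1 hzy.symm
    have hvq' : v < q := by
      rcases hvq with h | h | ⟨h, _⟩
      · exact h
      · exact absurd (Or.inl (hp0q.trans h)) h2
      · subst h; exact absurd hq.2.1 hvb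
    have hvK : v ∈ K := hK.down q hq.1 v hvq'
    rcases hG v hvq' (fun h => hvb h.2.1) with h6 | ⟨h6, h7⟩
    · have h8 := hdle v hvK z hvz
      rw [h6] at h8
      exact hz2 h8
    · have h8 : Nb red (d v) v := hdN v hvK
      have h9 : d v ≠ p0 := fun h => h2 (h ▸ h8)
      have h10 : d v ≠ y := fun h => h3 (h ▸ h8)
      rcases h5 (d v) h8.symm with h11 | h11
      · exact anti p0 (d v) hp0 hp0q h6 h7 (Ne.symm h9) h11
      · exact anti y (d v) hy hyq h6 h7 (Ne.symm h10) h11

end HWP
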